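import Mathlib

/-!
Definitions for the project RT (MP_a315fd_nt, Conway's RATS sequences), helper20.
-/

set_option autoImplicit false

namespace Pool.RT

/-- digit reversal in base 10 -/
def rv (x : ℕ) : ℕ := Nat.ofDigits 10 (Nat.digits 10 x).reverse

/-- The RATS map, term for term as in the frozen statement S18003. -/
def T (x : ℕ) : ℕ :=
  Nat.ofDigits 10 ((Nat.digits 10 (x + Nat.ofDigits 10 (Nat.digits 10 x).reverse)).mergeSort
    (fun a b => decide (b ≤ a)))

/-- number of digits d of n (used for d at least 1) -/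
def cnt (d n : ℕ) : ℕ := (Nat.digits 10 n).count d

/-- little endian list of the sorted number with ai digits i -/
def wl (a1 a2 a3 a4 a5 a6 a7 a8 a9 : ℕ) : List ℕ :=
  List.replicate a9 9 ++ (List.replicate a8 8 ++ (List.replicate a7 7 ++ (List.replicate a6 6 ++
    (List.replicate a5 5 ++ (List.replicate a4 4 ++ (List.replicate a3 3 ++
    (List.replicate a2 2 ++ List.replicate a1 1)))))))

/-- the number 1^a1 2^a2 ... 9^a9 (digits in non-decreasing order from the left) -/
def Wd (a1 a2 a3 a4 a5 a6 a7 a8 a9 : ℕ) : ℕ := Nat.ofDigits 10 (wl a1 a2 a3 a4 a5 a6 a7 a8 a9)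

/-- reversal of the last k decimal digits of n (padded with zeros) -/
def revk : ℕ → ℕ → ℕ
  | 0, _ => 0
  | (k + 1), n => (n % 10) * 10 ^ k + revk k (n / 10)

/-- n + its reversal as a word of length l -/
def S (l F : ℕ) : ℕ := F + revk l F

/-- (P, Q) is a wrap of length K: for every word F of length l the word P F Q of length 2K + l has
a sum with its reversal which has r d more digits d than the sum of F with its reversal. -/
def Wrap (K P Q : ℕ) (r : ℕ → ℕ) : Prop :=
  P < 10 ^ K ∧ Q < 10 ^ K ∧ ∀ l F : ℕ, F < 10 ^ l → ∀ d : ℕ, 1 ≤ d → d ≤ 9 →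
    cnt d (S (2 * K + l) (P * 10 ^ (K + l) + F * 10 ^ K + Q)) = cnt d (S l F) + r d

/-- number of digits d among the last h decimal digits of n (padded with zeros) -/
def dc : ℕ → ℕ → ℕ → ℕ
  | 0, _, _ => 0
  | (h + 1), d, n => (if n % 10 = d then 1 else 0) + dc h d (n / 10)

/-- the digit counts of a gadget, g = 1, ..., 9 -/
def gv (g d : ℕ) : ℕ := cnt d (10 * g + 10) + cnt d (100 + g)

/-- the free inner word of length 2h + 2 -/
def inner (h V W : ℕ) : ℕ := revk h W * 10 ^ (h + 2) + V

/-- no digit occurs more than t times among the last h digits of V + W and of rev V + rev W -/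
def Good (h t V W : ℕ) : Prop :=
  ∀ d : ℕ, d < 10 → dc h d (V + W) ≤ t ∧ dc h d (revk h V + revk h W) ≤ t

end Pool.RT
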