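import Pool.Agent.H20.RT.Stmts

/-!
Pattern for the step rows of board rt.
-/

set_option autoImplicit false

namespace Pool.RT

/-- value of 11...1 (k ones) -/
def R (k : ℕ) : ℕ := Nat.ofDigits 10 (List.replicate k 1)

theorem R_succ (k : ℕ) : R (k + 1) = 1 + 10 * R k := by
  unfold R
  rw [List.replicate_succ, Nat.ofDigits_cons]

theorem pow_R (k : ℕ) : 10 ^ k = 9 * R k + 1 := by
  induction k with
  | zero => simp [R]
  | succ k ih => rw [pow_succ, ih, R_succ]; ring

theorem R_add (a b : ℕ) : R (a + b) = R a + (9 * R a + 1) * R b := by
  induction a with
  | zero => simp [R]
  | succ a ih =>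
    rw [Nat.add_right_comm, R_succ, ih, R_succ]
    ring

theorem od_rep (k d : ℕ) : Nat.ofDigits 10 (List.replicate k d) = d * R k := by
  induction k with
  | zero => simp [R]
  | succ k ih =>
    rw [List.replicate_succ, Nat.ofDigits_cons, ih, R_succ]
    ring

theorem R_one : R 1 = 1 := by simp [R]

theorem R_two_mul (a : ℕ) : R (2 * a) = R a + (9 * R a + 1) * R a := by
  rw [two_mul, R_add]

theorem S1_thm (hSTP : STPStmt) : S1Stmt := by
  intro a b
  have h := hSTP (wl (a + b) b 0 0 0 0 0 0 0)
    (List.replicate b 3 ++ (List.replicate a 2 ++ List.replicate b 3)) 0 a (2 * b) 0 0 0 0 0 0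
    (by
      intro x hx
      simp only [wl, List.mem_append, List.mem_replicate] at hx
      omega)
    (by
      intro x hx
      simp only [List.mem_append, List.mem_replicate] at hx
      omega)
    (by
      simp only [wl, List.replicate_zero, List.nil_append, List.reverse_append,
        List.reverse_replicate, Nat.ofDigits_append, od_rep, List.length_replicate, pow_R, R_add]
      ring)
    (by simp [List.count_append, List.count_replicate]) 
    (by simp [List.count_append, List.count_replicate]) 
    (by simp [List.count_append, List.count_replicate]; try ring) 
    (by simp [List.count_append, List.count_replicate]) 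
    (by simp [List.count_append, List.count_replicate]) 
    (by simp [List.count_append, List.count_replicate]) 
    (by simp [List.count_append, List.count_replicate]) 
    (by simp [List.count_append, List.count_replicate]) 
    (by simp [List.count_append, List.count_replicate])
  exact h

end Pool.RT
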