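import Pool.Agent.H20.RT.Defs

/-!
Board rt (MP_a315fd_nt): statements of all rows. Row XXX = def XXXStmt : Prop.
-/

set_option autoImplicit false

namespace Pool.RT

/-- CTO. Induction on m: ofDigits (a :: m) = a + 10 ofDigits m; if this is 0 then all is 0 and both
counts are 0 (the count of m is 0 by induction), else Nat.digits_def' / Nat.digits_add. -/
def CTOStmt : Prop := ∀ (m : List ℕ) (d : ℕ), (∀ x ∈ m, x < 10) → 1 ≤ d →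
  cnt d (Nat.ofDigits 10 m) = m.count d

/-- TWD. T x sorts the digits of x + rv x in non-increasing order (little endian). The sorted list is
wl a1 .. a9 followed by zeros (a sorted permutation is unique: count equal for every d; digits are
< 10), and trailing zeros do not change ofDigits (Nat.ofDigits_append, ofDigits of zeros is 0). -/
def TWDStmt : Prop := ∀ x a1 a2 a3 a4 a5 a6 a7 a8 a9 : ℕ,
  cnt 1 (x + rv x) = a1 → cnt 2 (x + rv x) = a2 → cnt 3 (x + rv x) = a3 →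
  cnt 4 (x + rv x) = a4 → cnt 5 (x + rv x) = a5 → cnt 6 (x + rv x) = a6 →
  cnt 7 (x + rv x) = a7 → cnt 8 (x + rv x) = a8 → cnt 9 (x + rv x) = a9 →
  T x = Wd a1 a2 a3 a4 a5 a6 a7 a8 a9

/-- STP (step lemma). All entries of u are nonzero digits, so Nat.digits 10 (ofDigits 10 u) = u and
rv (ofDigits u) = ofDigits u.reverse; the counts come from CTO; then TWD. needs: CTO, TWD. -/
def STPStmt : Prop := ∀ (u m : List ℕ) (a1 a2 a3 a4 a5 a6 a7 a8 a9 : ℕ),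
  (∀ x ∈ u, 1 ≤ x ∧ x ≤ 9) → (∀ x ∈ m, x < 10) →
  Nat.ofDigits 10 u + Nat.ofDigits 10 u.reverse = Nat.ofDigits 10 m →
  m.count 1 = a1 → m.count 2 = a2 → m.count 3 = a3 → m.count 4 = a4 → m.count 5 = a5 →
  m.count 6 = a6 → m.count 7 = a7 → m.count 8 = a8 → m.count 9 = a9 →
  T (Nat.ofDigits 10 u) = Wd a1 a2 a3 a4 a5 a6 a7 a8 a9

/-- S1. Little endian u = 2^b 1^(a+b), reversed 1^(a+b) 2^b, sum m = 3^b 2^a 3^b. Use STP with this m;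
the identity ofDigits u + ofDigits u.reverse = ofDigits m: Nat.ofDigits_append,
9 * ofDigits 10 (replicate k d) + d = d * 10^k, then ring / linear arithmetic in 10^a, 10^b. -/
def S1Stmt : Prop := ∀ a b : ℕ, T (Wd (a + b) b 0 0 0 0 0 0 0) = Wd 0 a (2 * b) 0 0 0 0 0 0

/-- S2. u = 3^b 2^(a+b), m = 5^b 4^a 5^b. -/
def S2Stmt : Prop := ∀ a b : ℕ, T (Wd 0 (a + b) b 0 0 0 0 0 0) = Wd 0 0 0 a (2 * b) 0 0 0 0

/-- S3. u = 5^b 4^(a+b), m = 9^b 8^a 9^b. -/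
def S3Stmt : Prop := ∀ a b : ℕ, T (Wd 0 0 0 (a + b) b 0 0 0 0) = Wd 0 0 0 0 0 0 0 a (2 * b)

/-- S4. u = 9^(b+1) 8^(a+b+1), m = 7 8^b 7^a 8^(b+1) 1 (17 = 7 carry, 18 = 8, 17 = 7, 18 = 8). -/
def S4Stmt : Prop := ∀ a b : ℕ,
  T (Wd 0 0 0 0 0 0 0 (a + b + 1) (b + 1)) = Wd 1 0 0 0 0 0 (a + 1) (2 * b + 1) 0

/-- S5. u = 8^(b+2) 7^(a+b+1) 1, reversed 1 7^(a+b+1) 8^(b+2), position sums 9, 15^(b+1), 14^a,
15^(b+1), 9, so m = 9 5 6^b 5^a 6^(b+1) 0 1. -/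
def S5Stmt : Prop := ∀ a b : ℕ,
  T (Wd 1 0 0 0 0 0 (a + b + 1) (b + 2) 0) = Wd 1 0 0 0 (a + 1) (2 * b + 1) 0 0 1

/-- S6. u = 9 6^b 5^(a+b) 1, reversed 1 5^(a+b) 6^b 9, position sums 10, 11^b, 10^a, 11^b, 10, so
m = 0 2^b 1^a 2^b 1 1. -/
def S6Stmt : Prop := ∀ a b : ℕ,
  T (Wd 1 0 0 0 (a + b) b 0 0 1) = Wd (a + 2) (2 * b) 0 0 0 0 0 0 0

/-- C1. u = 2^(a+b) 1^a, m = 3^a 4^b 3^a. -/
def C1Stmt : Prop := ∀ a b : ℕ, T (Wd a (a + b) 0 0 0 0 0 0 0) = Wd 0 0 (2 * a) b 0 0 0 0 0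

/-- C2. u = 4^(a+b) 3^a, m = 7^a 8^b 7^a. -/
def C2Stmt : Prop := ∀ a b : ℕ, T (Wd 0 0 a (a + b) 0 0 0 0 0) = Wd 0 0 0 0 0 0 (2 * a) b 0

/-- C3. u = 8^(a+1+b) 7^(a+1), position sums 15^(a+1), 16^b, 15^(a+1), so
m = 5 6^a 7^b 6^(a+1) 1. -/
def C3Stmt : Prop := ∀ a b : ℕ,
  T (Wd 0 0 0 0 0 0 (a + 1) (a + 1 + b) 0) = Wd 1 0 0 0 1 (2 * a + 1) b 0 0

/-- C4. u = 7^(a+2+b) 6^a 5 1, reversed 1 5 6^a 7^(a+2+b), position sums 8, 12, 13^a, 14^b, 13^a,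
12, 8, so m = 8 2 4^a 5^b 4^a 3 9. -/
def C4Stmt : Prop := ∀ a b : ℕ,
  T (Wd 1 0 0 0 1 a (a + 2 + b) 0 0) = Wd 0 1 1 (2 * a) b 0 0 1 1

/-- C5. u = 9 8 5^(a+t) 4^a 3 2, reversed 2 3 4^a 5^(a+t) 8 9, position sums 11, 11, 9^a, 10^t, 9^a,
11, 11, so m = 1 2 0^a 1^t 0^a 2 2 1. -/
def C5Stmt : Prop := ∀ a t : ℕ,
  T (Wd 0 1 1 a (a + t) 0 0 1 1) = Wd (t + 2) 3 0 0 0 0 0 0 0

/-- Z1. M = M'+1. u = 9^M 8^M 7^M 6^(M+b) 5^(b+e) 4^M 3^M 2^M 1^M, position sums 10^(4M), 11^b, 10^e,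
11^b, 10^(4M), so m = 0 1^(4M-1) 2^b 1^e 2^b 1^(4M) 1. -/
def Z1Stmt : Prop := ∀ M b e : ℕ, 1 ≤ M →
  T (Wd M M M M (b + e) (M + b) M M M) = Wd (8 * M + e) (2 * b) 0 0 0 0 0 0 0

/-- SIX. Compose S1, ..., S6 (A = 63 B + a, B = b + 1):
2^(A-B) 3^(2B), 4^(A-3B) 5^(4B), 8^(A-7B) 9^(8B), 1 7^(A-15B+1) 8^(16B-1),
1 5^(A-31B+4) 6^(32B-5) 9, 1^(A-63B+11) 2^(64B-10). -/
def SIXStmt : Prop := ∀ a b : ℕ,
  T^[6] (Wd (63 * (b + 1) + a) (b + 1) 0 0 0 0 0 0 0) = Wd (a + 11) (64 * b + 54) 0 0 0 0 0 0 0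

/-- COL. Compose C1, ..., C5 (with x = a + 1): 3^(2x) 4^(30x-1+t), 7^(4x) 8^(28x-1+t),
1 5 6^(8x-1) 7^(24x-1+t), 2 3 4^(16x-2) 5^(16x-2+t) 8 9, 1^(t+2) 2^3. -/
def COLStmt : Prop := ∀ a t : ℕ,
  T^[5] (Wd (a + 1) (31 * a + 30 + t) 0 0 0 0 0 0 0) = Wd (t + 2) 3 0 0 0 0 0 0 0

/-- FAM. Induction on j. j = 0: COL with a = β (a0 = 1, b0 = 30 + t, k = 5). Step: put L = 32 * 64^j;
choose bs in 11..74 with 31 bs + b0 = 54 mod 64 (bs = 31 (54 - b0) mod 64, as 31 * 31 = 1 mod 64),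
b0' = (31 bs + b0 + 10) / 64 (exact; 5 <= b0' <= 37), a0' = 63 b0' + (L - 31) bs + a0 - 11, k' = k + 6.
For β put B' = 31 β + b0', then with γ = 64 β + bs: 31 γ + b0 = 64 B' - 10 and
(64 L - 31) β + a0' = 63 B' + ((L - 31) γ + a0) - 11, so SIX (b = B' - 1, a + 11 = (L-31)γ + a0 >= 11)
gives the step. -/
def FAMStmt : Prop := ∀ t : ℕ, t ≤ 1 → ∀ j : ℕ, ∃ a0 b0 k : ℕ,
  a0 ≤ 100 * (32 * 64 ^ j) ∧ b0 ≤ 37 ∧ ∀ β : ℕ,
    T^[k] (Wd ((32 * 64 ^ j - 31) * β + a0) (31 * β + b0) 0 0 0 0 0 0 0) =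
      Wd (t + 2) 3 0 0 0 0 0 0 0

/-- TGT. Let j >= 1 with 64^j <= r < 64^(j+1) (Nat.log), L = 32 * 64^j (so 2048 <= L <= 32 r and
r < 2 L), a0 b0 k from FAM. p = b0 mod 2; for γ put β = 2γ + p: A = (L-31)β + a0,
31 β + b0 = 62 γ + 31 p + b0 = 2 b with b = 31 γ + b0'', 2 b0'' = 31 p + b0 (b0'' <= 34).
Let N = A + 2b = 2 L γ + n0, n0 = (L-31) p + a0 + 2 b0'' <= 101 L + 68.
Take γ least with (2L - 31) γ >= 9 M0 (γ >= 1, γ <= 9 M0 / (2L-31) + 1 <= 18 M0 / r + 1 <= 18 r + 1),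
M = (N - b) / 9, e = A - 8 M. Then N - b >= (2L-31)γ >= 9 M0 gives M0 <= M; 10 b <= N (L >= 2048,
γ >= 1) gives 8 M <= A; b + e = N - b - 8M >= M >= M0; N <= 9 M0 + 2 L + 31 γ + n0
<= 9 M0 + 64 r + 31 (18 r + 1) + 101 * 32 r + 68 <= 9 M0 + 4500 r. -/
def TGTStmt : Prop := ∀ t : ℕ, t ≤ 1 → ∀ r M0 : ℕ, 64 ≤ r → 1 ≤ M0 → M0 ≤ r * r →
  ∃ M b e k : ℕ, M0 ≤ M ∧ M0 ≤ b + e ∧ 8 * M + 2 * b + e ≤ 9 * M0 + 4500 * r ∧
    T^[k] (Wd (8 * M + e) (2 * b) 0 0 0 0 0 0 0) = Wd (t + 2) 3 0 0 0 0 0 0 0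

/-- E0. 11222 -> ... -> 123334444 in 9 steps (concrete numbers; each step by STP or by evaluation). -/
def E0Stmt : Prop := T^[9] (Wd 2 3 0 0 0 0 0 0 0) =
  Nat.ofDigits 10 (List.replicate 4 4 ++ List.replicate 3 3 ++ [2, 1])

/-- E1. 111222 -> ... -> 117 (17 steps) -> 288 -> 117. -/
def E1Stmt : Prop := T^[19] (Wd 3 3 0 0 0 0 0 0 0) = T^[17] (Wd 3 3 0 0 0 0 0 0 0)

/-- RV1. Bound, involution and the split formula for revk. Third: revk is reversal of words: the word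
of length a + b with value x + 10^a y reversed is (rev x)(rev y). Inductions on a. Fourth, fifth: leading
zero / last digit zero. -/
def RV1Stmt : Prop :=
  (∀ k n : ℕ, revk k n < 10 ^ k) ∧
  (∀ k n : ℕ, n < 10 ^ k → revk k (revk k n) = n) ∧
  (∀ a b x y : ℕ, x < 10 ^ a → revk (a + b) (x + 10 ^ a * y) = revk a x * 10 ^ b + revk b y) ∧
  (∀ k n : ℕ, n < 10 ^ k → revk (k + 1) n = 10 * revk k n) ∧
  (∀ k n : ℕ, revk (k + 1) (10 * n) = revk k n)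

/-- RV4. If n has exactly k + 1 digits then its reversal is revk (k+1) n. -/
def RV4Stmt : Prop := ∀ k n : ℕ, 10 ^ k ≤ n → n < 10 ^ (k + 1) → rv n = revk (k + 1) n

/-- CAD. Digits of a + 10^k b are the k padded digits of a followed by those of b (if b = 0 nothing);
d >= 1 so padding zeros do not count. Induction on k. -/
def CADStmt : Prop := ∀ d a b k : ℕ, 1 ≤ d → a < 10 ^ k →
  cnt d (a + 10 ^ k * b) = cnt d a + cnt d b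

/-- WRB (base wrap). n = P 10^(K+1+l) + F 10^(K+1) + Q; by RV1
S n = (P + revk (K+1) Q) 10^(K+1+l) + S l F 10^(K+1) + (Q + revk (K+1) P); the last summand is
< 2 * 10^K (10 divides P: revk (K+1) P = revk K (P/10)), S l F < 2 * 10^l <= 10^(l+1) and
10 divides P + revk (K+1) Q (revk (K+1) Q = 10 revk K Q); CAD twice. needs: RV1, CAD. -/
def WRBStmt : Prop := ∀ K P Q : ℕ, P < 10 ^ (K + 1) → Q < 10 ^ K → 10 ∣ P →
  Wrap (K + 1) P Q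
    (fun d => cnt d (Q + revk (K + 1) P) + cnt d ((P + revk (K + 1) Q) / 10))

/-- WRC. Composition of wraps: pure algebra, apply the outer wrap to
F' = P 10^(K+l) + F 10^K + Q < 10^(2K+l). -/
def WRCStmt : Prop := ∀ (K P Q : ℕ) (r : ℕ → ℕ) (K' P' Q' : ℕ) (r' : ℕ → ℕ),
  Wrap K P Q r → Wrap K' P' Q' r' →
  Wrap (K + K') (P' * 10 ^ K + P) (Q * 10 ^ K' + Q') (fun d => r d + r' d)

/-- WRS. Zero wrap, filler wraps (K = 2, P = 10 s, Q = 0), gadget wraps (K = 3, P = 900 + 10 g,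
Q = 1: Q + revk 3 P = 10 g + 10, (P + revk 3 Q) / 10 = 100 + g). From WRB by cases. needs: WRB. -/
def WRSStmt : Prop :=
  Wrap 1 0 0 (fun _ => 0) ∧
  (∀ s : ℕ, 1 ≤ s → s ≤ 9 → Wrap 2 (10 * s) 0 (fun d => if d = s then 2 else 0)) ∧
  (∀ g : ℕ, 1 ≤ g → g ≤ 9 → Wrap 3 (900 + 10 * g) 1 (gv g))

/-- PTY. Parity: the vectors gv g mod 2 (g = 1..9) span F_2^9: gv 1 = (2,1,0,..), gv g = e_1 + e_g +
e_(g+1) (2 <= g <= 8), gv 9 = 2 e_1 + e_9; a subset I of 1..9 has sum <= 11 in every coordinate. -/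
def PTYStmt : Prop := ∀ r : ℕ → ℕ, (∀ d, 1 ≤ d → d ≤ 9 → 20 ≤ r d) →
  ∃ (I : List ℕ) (q : ℕ → ℕ), I.length ≤ 9 ∧ (∀ g ∈ I, 1 ≤ g ∧ g ≤ 9) ∧
    ∀ d, 1 ≤ d → d ≤ 9 → 1 ≤ q d ∧ r d = (I.map (fun g => gv g d)).sum + 2 * q d

/-- STR (steering). I, q from PTY. Compose (WRC) the gadgets of I (total length 3 |I| <= 27), then for
d = 1..9 q d fillers d (total length 2 sum q d <= sum r d), except one filler 9, then zero wraps to reach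
the length K, and the last filler 9 as outermost wrap (P' = 90, so 10^K <= 10 P).
needs: WRC, WRS, PTY. -/
def STRStmt : Prop := ∀ r : ℕ → ℕ, (∀ d, 1 ≤ d → d ≤ 9 → 20 ≤ r d) → ∀ K : ℕ,
  r 1 + r 2 + r 3 + r 4 + r 5 + r 6 + r 7 + r 8 + r 9 + 40 ≤ K →
  ∃ P Q : ℕ, Wrap K P Q r ∧ 10 ^ K ≤ 10 * P

/-- INN. WRB with K = h, P = 10 revk h W, Q = V, l = 0, F = 0. needs: RV1, WRB. -/
def INNStmt : Prop := ∀ h V W : ℕ, V < 10 ^ h → W < 10 ^ h →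
  inner h V W < 10 ^ (2 * h + 2) ∧ ∀ d, 1 ≤ d → d ≤ 9 →
    cnt d (S (2 * h + 2) (inner h V W)) = cnt d (V + W) + cnt d (revk h V + revk h W)

/-- DCS. Elementary facts on dc (induction on h): comparison with cnt, the ten counts add up to h,
dc h d n depends only on n mod 10^h. -/
def DCSStmt : Prop :=
  (∀ h d n : ℕ, 1 ≤ d → n < 2 * 10 ^ h → cnt d n ≤ dc h d n + 1) ∧
  (∀ h d n : ℕ, 1 ≤ d → dc h d n ≤ cnt d n) ∧
  (∀ h n : ℕ, dc h 0 n + dc h 1 n + dc h 2 n + dc h 3 n + dc h 4 n + dc h 5 n + dc h 6 n +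
    dc h 7 n + dc h 8 n + dc h 9 n = h) ∧
  (∀ h d n : ℕ, dc h d (n % 10 ^ h) = dc h d n)

/-- VAR. Induction on h: n = 10 q + s, x = 10 dc h d q - h, y = 10 [s = d] - 1, sum over s of y = 0 and
of y^2 = 90. -/
def VARStmt : Prop := ∀ h d : ℕ, d < 10 →
  ∑ n ∈ Finset.range (10 ^ h), (10 * (dc h d n : ℤ) - (h : ℤ)) ^ 2 = 9 * (h : ℤ) * 10 ^ h

/-- CHB (Chebyshev). If dc h d n > t then 10 dc - h >= 10 (t+1) - h > 30 r, so the square is > 900 r^2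
> 900 h. needs: VAR. -/
def CHBStmt : Prop := ∀ h r t d : ℕ, d < 10 → h < r * r → h + 30 * r < 10 * (t + 1) →
  100 * ((Finset.range (10 ^ h)).filter (fun n => t < dc h d n)).card ≤ 10 ^ h

/-- GDS. For fixed V the map W -> (V + W) mod 10^h is a bijection of range (10^h) (DCS, last part), so
the number of pairs with t < dc h d (V + W) is 10^h times the number in CHB, at most 10^(2h)/100;
(V, W) -> (revk h V, revk h W) is a bijection (RV1), so the same holds for revk h V + revk h W.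
Twenty bad events: at most 20/100 of all pairs. needs: RV1, DCS, CHB. -/
def GDSStmt : Prop := ∀ h r t : ℕ, h < r * r → h + 30 * r < 10 * (t + 1) →
  4 * 10 ^ (2 * h) ≤ 5 * {p : ℕ × ℕ | p.1 < 10 ^ h ∧ p.2 < 10 ^ h ∧ Good h t p.1 p.2}.ncard

/-- BIG. M0 = 2t + 22 <= r^2 (10 t <= h + 30 r < r^2 + 30 r, r >= 64). M b e k from TGT,
N = 8M + 2b + e <= 18 t + 198 + 4500 r; put c_d = M for d in {1,2,3,4,7,8,9}, c_6 = M + b, c_5 = b + e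
(all >= M0). f_d = cnt d (V+W) + cnt d (revk h V + revk h W) <= 2 (t + 1) (DCS; V + W < 2 * 10^h),
sum_(d=1..9) f_d >= 2 (h - t) (DCS: the counts dc h 1, .., dc h 9 add up to h - dc h 0 >= h - t, and
cnt >= dc; if t > h trivial), so r_d = c_d - f_d >= 20 and
sum r_d <= N - 2h + 2t <= 20 t - 2h + 198 + 4500 r <= 4560 r + 198, so + 40 <= 4600 r = K. STR gives P, Q.
n = P 10^(K+2h+2) + F 10^K + Q (F = inner h V W) has exactly 2K + 2h + 2 digits (10^K <= 10 P), RV4 gives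
n + rv n = S (2K+2h+2) n, with c_d digits d (Wrap, INN), so T n = Wd M M M M (b+e) (M+b) M M M by TWD,
T (T n) = Wd (8M+e) (2b) by Z1, T^[k+2] n = Wd (t0+2) 3 by TGT.
needs: TWD, Z1, TGT, RV4, STR, INN, DCS. -/
def BIGStmt : Prop := ∀ t0 : ℕ, t0 ≤ 1 → ∀ h r t : ℕ, 64 ≤ r → h < r * r → 10 * t ≤ h + 30 * r →
  ∃ k : ℕ, ∀ V W : ℕ, V < 10 ^ h → W < 10 ^ h → Good h t V W →
    ∃ P Q : ℕ, P < 10 ^ (4600 * r) ∧ Q < 10 ^ (4600 * r) ∧ 10 ^ (4600 * r) ≤ 10 * P ∧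
      T^[k] (P * 10 ^ (4600 * r + (2 * h + 2)) + inner h V W * 10 ^ (4600 * r) + Q) =
        Wd (t0 + 2) 3 0 0 0 0 0 0 0

/-- CTL. t = (h + 30 r) / 10. Map a good pair (V, W) to n of BIG (choose P, Q): n < 10^(2K+2h+2),
K = 4600 r, n >= 1, and (V, W) is recovered: (n / 10^K) % 10^(2h+2) = inner h V W, V = inner % 10^(h+2),
revk h W = inner / 10^(h+2), W by RV1. So the number of n is at least the number of good pairs (GDS).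
needs: RV1, INN, GDS, BIG. -/
def CTLStmt : Prop := ∀ t0 : ℕ, t0 ≤ 1 → ∀ h r : ℕ, 64 ≤ r → h < r * r →
  4 * 10 ^ (2 * h) ≤ 5 * {n : ℕ | 1 ≤ n ∧ n < 10 ^ (9200 * r + 2 * h + 2) ∧
    ∃ k : ℕ, T^[k] n = Wd (t0 + 2) 3 0 0 0 0 0 0 0}.ncard

/-- FIN (real analysis). X large, L = Nat.log 10 X, r = Nat.sqrt L + 1, h = (L - 9200 r - 2) / 2
(L is large, so 9200 r + 2 <= L and r >= 64), h <= L < r^2. CTL: the number is at least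
(4/5) 10^(2h) >= (4/5) 10^(L - 9200 r - 3), X < 10^(L+1), and
10^(9200 r + 5) <= exp (C sqrt (log X)) for C = 30000 and X large (r <= sqrt (log X / log 10) + 1).
needs: CTL. -/
def FINStmt : Prop := ∃ C : ℝ, ∃ X0 : ℕ, ∀ t0 : ℕ, t0 ≤ 1 → ∀ X : ℕ, X0 ≤ X →
  (X : ℝ) * Real.exp (-C * Real.sqrt (Real.log X)) ≤
    ({n : ℕ | 1 ≤ n ∧ n ≤ X ∧ ∃ k : ℕ, T^[k] n = Wd (t0 + 2) 3 0 0 0 0 0 0 0}.ncard : ℝ)

/-- RES. From FIN with t0 = 0 and E0 (the number reaches 1 2 3^3 4^4), t0 = 1 and E1 (the sequence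
cycles); monotonicity of ncard (finite sets). needs: E0, E1, FIN. -/
def RESStmt : Prop := ∃ C : ℝ, ∃ X0 : ℕ, ∀ X : ℕ, X0 ≤ X →
  (X : ℝ) * Real.exp (-C * Real.sqrt (Real.log X)) ≤
    ({n : ℕ | 1 ≤ n ∧ n ≤ X ∧ ∃ k p : ℕ, 0 < p ∧ T^[k + p] n = T^[k] n}.ncard : ℝ) ∧
  (X : ℝ) * Real.exp (-C * Real.sqrt (Real.log X)) ≤
    ({n : ℕ | 1 ≤ n ∧ n ≤ X ∧ ∃ k m : ℕ, 2 ≤ m ∧ T^[k] n =
      Nat.ofDigits 10 (List.replicate 4 4 ++ List.replicate m 3 ++ [2, 1])}.ncard : ℝ)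

end Pool.RT
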